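import Pool.Agent.MP_515557_an.H11.MBasic

/-! Cost of the tails of conflict pairs in one vertical slab. -/

set_option autoImplicit false

open MeasureTheory Set Metric Filter Topology
open scoped ENNReal

namespace Pool.Agent.MP_515557_an.H19

open Pool.Agent.MP_515557_an.H11.Mono

variable {v : ℂ → ℂ} {l : ℂ → ℝ} {M K σ κ ε r p : ℝ} {C S : Set ℂ}

theorem tonelli {f : ℂ → ℝ≥0∞} (hf : Measurable f) :
    Measurable (fun a : ℝ => ∫⁻ s : ℝ, f ⟨s, a⟩) ∧ ∫⁻ x, f x = ∫⁻ a : ℝ, ∫⁻ s : ℝ, f ⟨s, a⟩ := by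
  have hm : Measurable fun q : ℝ × ℝ => f ⟨q.1, q.2⟩ :=
    hf.comp Complex.measurableEquivRealProd.symm.measurable
  refine ⟨hm.lintegral_prod_left', ?_⟩
  rw [← (Complex.volume_preserving_equiv_real_prod.symm _).lintegral_comp hf]
  exact lintegral_prod_symm _ hm.aemeasurable

theorem hasDerivAt_line (h : Data v l M K) (a s : ℝ) :
    HasDerivAt (fun t : ℝ => (v ⟨t, a⟩).re) (fderiv ℝ v ⟨s, a⟩ 1).re s := by
  have h1 : HasDerivAt (fun t : ℝ => (⟨t, a⟩ : ℂ)) 1 s := by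
    have e : (fun t : ℝ => (⟨t, a⟩ : ℂ)) = fun t : ℝ => (t : ℂ) + a * Complex.I := by
      funext t
      apply Complex.ext <;> simp
    rw [e]
    exact (Complex.ofRealCLM.hasDerivAt (x := s)).add_const _
  have h2 := (h.diff ⟨s, a⟩).hasFDerivAt.comp_hasDerivAt s h1
  exact Complex.reCLM.hasFDerivAt.comp_hasDerivAt s h2

theorem lip_line (h : Data v l M K) (a s t : ℝ) :
    |(fderiv ℝ v ⟨s, a⟩ 1).re - (fderiv ℝ v ⟨t, a⟩ 1).re| ≤ K * |s - t| := by
  have h1 := h.lip ⟨s, a⟩ ⟨t, a⟩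
  have h2 : (⟨s, a⟩ : ℂ) - ⟨t, a⟩ = ((s - t : ℝ) : ℂ) := by
    apply Complex.ext <;> simp
  rw [h2, Complex.norm_real, Real.norm_eq_abs] at h1
  have h3 := (fderiv ℝ v ⟨s, a⟩ - fderiv ℝ v ⟨t, a⟩).le_opNorm 1
  rw [norm_one, mul_one, sub_apply] at h3
  rw [← Complex.sub_re]
  exact (Complex.abs_re_le_norm _).trans (h3.trans h1)

theorem line (h : Data v l M K) (ha : Adm v l σ C) (hr : K * r ≤ σ) {a Q : ℝ} {T : Set ℝ}
    (hT : ∀ s ∈ T, (⟨s, a⟩ : ℂ) ∈ C ∧ p < s ∧ s ≤ p + r)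
    (hQ : ∀ s ∈ T, ∀ t ∈ T, s ≤ t → (v ⟨t, a⟩).re - (v ⟨s, a⟩).re ≤ Q) :
    ∫⁻ s in T, ENNReal.ofReal (l ⟨s, a⟩) ≤ ENNReal.ofReal Q := by
  rcases T.eq_empty_or_nonempty with rfl | hne
  · simp
  have hb : BddBelow T := ⟨p, fun s hs => (hT s hs).2.1.le⟩
  have hu : BddAbove T := ⟨p + r, fun s hs => (hT s hs).2.2⟩
  have hPc : Continuous fun t : ℝ => (v ⟨t, a⟩).re :=
    continuous_iff_continuousAt.2 fun s => (hasDerivAt_line h a s).continuousAt
  have hP'c : Continuous fun t : ℝ => (fderiv ℝ v ⟨t, a⟩ 1).re := by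
    refine (LipschitzWith.of_dist_le_mul (K := ⟨K, h.Kpos.le⟩) fun s t => ?_).continuous
    exact lip_line h a s t
  have hle : sInf T ≤ sSup T := csInf_le_csSup hne hb hu
  have h1 : (v ⟨sSup T, a⟩).re - (v ⟨sInf T, a⟩).re ≤ Q := by
    have hc : IsClosed {q : ℝ × ℝ | (v ⟨max q.1 q.2, a⟩).re - (v ⟨min q.1 q.2, a⟩).re ≤ Q} :=
      isClosed_le ((hPc.comp (by fun_prop)).sub (hPc.comp (by fun_prop))) continuous_const
    have h2 : T ×ˢ T ⊆ {q : ℝ × ℝ | (v ⟨max q.1 q.2, a⟩).re - (v ⟨min q.1 q.2, a⟩).re ≤ Q} := by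
      rintro ⟨s, t⟩ ⟨hs, ht⟩
      rcases le_total s t with h3 | h3
      · simpa [h3] using hQ s hs t ht h3
      · simpa [h3] using hQ t ht s hs h3
    have h4 : (sInf T, sSup T) ∈ closure (T ×ˢ T) := by
      rw [closure_prod_eq]
      exact ⟨csInf_mem_closure hne hb, csSup_mem_closure hne hu⟩
    have h3 := hc.closure_subset_iff.2 h2 h4
    simpa [hle] using h3
  have hp1 : p ≤ sInf T := le_csInf hne fun s hs => (hT s hs).2.1.le
  have hp2 : sSup T ≤ p + r := csSup_le hne fun s hs => (hT s hs).2.2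
  have hnn : ∀ s ∈ Icc (sInf T) (sSup T), 0 ≤ (fderiv ℝ v ⟨s, a⟩ 1).re := by
    obtain ⟨s0, hs0⟩ := hne
    intro s hs
    have h2 := lip_line h a s s0
    have h3 := (ha.marg _ (hT s0 hs0).1).trans (h.le_re _)
    have h4 : |s - s0| ≤ r := abs_le.2 ⟨by linarith [hs.1, (hT s0 hs0).2.2],
      by linarith [hs.2, (hT s0 hs0).2.1]⟩
    have h5 := mul_le_mul_of_nonneg_left h4 h.Kpos.le
    linarith [(abs_le.1 h2).1]
  calc ∫⁻ s in T, ENNReal.ofReal (l ⟨s, a⟩)
      ≤ ∫⁻ s in Icc (sInf T) (sSup T), ENNReal.ofReal (fderiv ℝ v ⟨s, a⟩ 1).re :=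
        lintegral_mono' (Measure.restrict_mono (subset_Icc_csInf_csSup hb hu) le_rfl)
          fun s => ENNReal.ofReal_le_ofReal (h.le_re _)
    _ = ENNReal.ofReal (∫ s in Icc (sInf T) (sSup T), (fderiv ℝ v ⟨s, a⟩ 1).re) := by
        rw [ofReal_integral_eq_lintegral_ofReal hP'c.integrableOn_Icc]
        exact (ae_restrict_iff' measurableSet_Icc).2 (Eventually.of_forall hnn)
    _ ≤ ENNReal.ofReal Q := by
        refine ENNReal.ofReal_le_ofReal ?_
        rw [integral_Icc_eq_integral_Ioc, ← intervalIntegral.integral_of_le hle,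
          intervalIntegral.integral_eq_sub_of_hasDerivAt (fun s _ => hasDerivAt_line h a s)
            (hP'c.intervalIntegrable _ _)]
        exact h1

theorem alg {δ κ D P F N : ℝ} (hδ : 0 ≤ δ) (h0 : 0 < κ) (h1 : κ ≤ 1 / 10) (hD : 0 < D)
    (hk : D * P * (1 - 2 * κ - 0) ≤ F) (hF : F ≤ δ * N) (hN : N ≤ (1 + κ ^ 2) * D ^ 2) :
    P ≤ δ * (1 + 5 * κ) * D := by
  have h2 : 1 + κ ^ 2 ≤ (1 + 5 * κ) * (1 - 2 * κ) := by nlinarith
  have h3 : δ * N ≤ δ * ((1 + 5 * κ) * (1 - 2 * κ) * D ^ 2) :=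
    mul_le_mul_of_nonneg_left (hN.trans (mul_le_mul_of_nonneg_right h2 (sq_nonneg D))) hδ
  have h4 : 0 < D * (1 - 2 * κ) := mul_pos hD (by linarith)
  refine le_of_mul_le_mul_left ?_ h4
  linarith

theorem incr_le (h : Data v l M K) (ha : Adm v l σ C) (hκ0 : 0 < κ) (hκ : κ ≤ 1 / 10)
    (hε0 : 0 < ε) (hε : ε ≤ κ) (hM : 32 * ε * M ≤ κ * σ) (hS : Sect ε S)
    (hr : 16 * K * r ≤ κ * σ) {δ : ℝ} (hδ0 : 0 ≤ δ) (hδ : δ < σ / 2) {g : ℂ × ℂ}
    (hg : g ∈ conf v C S δ) {x' : ℂ} (hx' : x' ∈ C) (him : x'.im = g.1.im)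
    (h0 : g.1.re ≤ x'.re) (h1 : x'.re - g.1.re ≤ r) :
    (v x').re - (v g.1).re ≤ δ * (1 + 5 * κ) * (g.2.re - g.1.re) := by
  have hσ := ha.pos
  have hK := h.Kpos
  have hMp := h.Mpos
  have hsl := hS.slope _ hg.2.2.2.1
  have hD0 := re_pos_of_slope hε0 hsl (sub_ne_zero.2 hg.2.2.1.symm)
  have hlong := conf_long h ha hδ hg
  have hn := norm_le_of_slope (by linarith) hsl hD0.le
  rw [norm_sub_rev] at hlong
  have hKr := mul_le_mul_of_nonneg_left h1 hK.le
  have hσ1 : κ * σ ≤ 1 * σ := mul_le_mul_of_nonneg_right (by linarith) hσ.le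
  have hsD : (x' - g.1).re ≤ κ * (g.2 - g.1).re := by
    have h2 : σ ≤ 4 * K * (g.2 - g.1).re := by
      linarith [mul_le_mul_of_nonneg_left hn hK.le]
    refine le_of_mul_le_mul_left ?_ hK
    have h3 := mul_le_mul_of_nonneg_left h2 hκ0.le
    have h4 : 0 ≤ K * (x'.re - g.1.re) := mul_nonneg hK.le (by linarith)
    rw [Complex.sub_re x']
    linarith
  have hεM : 0 ≤ ε * M := by positivity
  obtain ⟨-, h2⟩ := key h ha (θ := 0) (κ := κ) (κ' := 0) hε0.le (by linarith) le_rfl zero_le_one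
    (by linarith) zero_le_one (by linarith) (by simp) hg.1 hx' hg.2.1
    (by rw [Complex.sub_re]; linarith) (by simp [him]) (by rw [Complex.sub_re]; linarith) hsl hD0
    hsD
  have h3 : ‖g.1 - g.2‖ ^ 2 ≤ (1 + κ ^ 2) * (g.2 - g.1).re ^ 2 := by
    rw [norm_sub_rev, Complex.sq_norm, Complex.normSq_apply]
    have h4 : |(g.2 - g.1).im| ≤ κ * (g.2 - g.1).re :=
      hsl.trans (mul_le_mul_of_nonneg_right hε hD0.le)
    have h5 := pow_le_pow_left₀ (abs_nonneg _) h4 2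
    rw [sq_abs] at h5
    linarith
  simpa using alg hδ0 hκ0 hκ hD0 h2 hg.2.2.2.2 h3

theorem no_tight (h : Data v l M K) (ha : Adm v l σ C) (hκ : κ ≤ 1 / 10)
    (hε0 : 0 < ε) (hε : ε ≤ κ) (hM : 32 * ε * M ≤ κ * σ) (hS : Sect ε S)
    (hr : 16 * K * r ≤ κ * σ) {a : ℝ} {x1 x2 : ℂ} (hne : x1 ≠ x2)
    (h1 : x1 ∈ C ∧ x1.im = a ∧ p < x1.re ∧ x1.re ≤ p + r)
    (h2 : x2 ∈ C ∧ x2.im = a ∧ p < x2.re ∧ x2.re ≤ p + r) {g : ℂ × ℂ} (hg : g ∈ conf v C S 0)
    (him : g.1.im = a) (hp : p ≤ g.1.re) (hp' : g.1.re ≤ p + r) :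
    p < g.1.re ∧ ∃ y, (g.1, y) ∈ maxl v C S ∧ g.2.re ≤ y.re := by
  have hσ := ha.pos
  have hK := h.Kpos
  have hεM : 0 ≤ ε * M := by have := h.Mpos; positivity
  obtain ⟨x0, hx0, h0⟩ : ∃ x0, x0 ≠ g.1 ∧ x0 ∈ C ∧ x0.im = a ∧ p < x0.re ∧ x0.re ≤ p + r := by
    by_cases hc : x1 = g.1
    · exact ⟨x2, fun h3 => hne (hc.trans h3.symm), h2⟩
    · exact ⟨x1, hc, h1⟩
  have hlt : x0.re < g.1.re := by
    by_contra hc
    push Not at hc
    refine hx0 (gap h ha (θ := 0) (κ := κ) hε0 (by linarith) le_rfl zero_le_one (by linarith)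
      (by linarith) (by linarith) hS hg h0.1 (by rw [Complex.sub_re]; linarith)
      (by simp [him, h0.2.1]) ?_)
    have : K * (x0.re - g.1.re) ≤ K * r :=
      mul_le_mul_of_nonneg_left (by linarith [h0.2.2.2]) hK.le
    rw [Complex.sub_re]
    linarith
  refine ⟨h0.2.2.1.trans hlt, ?_⟩
  have hc : IsCompact (conf v C S 0 ∩ {g' | g'.1 = g.1}) :=
    (isCompact_conf h ha hS.closed (by linarith)).inter_right
      (isClosed_eq continuous_fst continuous_const)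
  obtain ⟨⟨x, y⟩, ⟨hy, hx⟩, hmax⟩ := hc.exists_isMaxOn (f := fun g' : ℂ × ℂ => g'.2.re)
    ⟨g, hg, rfl⟩ (by fun_prop)
  obtain rfl : g.1 = x := hx.symm
  refine ⟨y, ⟨hy, fun t ht => ⟨fun hz hF => ?_, fun hz hF => ?_⟩⟩, hmax ⟨hg, rfl⟩⟩
  · dsimp only at hz hF
    have hxy := tight_eq ha hy
    have hzx : FF v g.1 (g.1 - t • (y - g.1)) = 0 := by
      have e : (1 + t) * FF v g.1 (g.1 - t • (y - g.1)) =
          t * FF v (g.1 - t • (y - g.1)) y - t * (1 + t) * FF v g.1 y := by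
        generalize hw : v (g.1 - t • (y - g.1)) = w
        simp only [FF, hw, ip, Complex.sub_re, Complex.sub_im, Complex.smul_re, Complex.smul_im,
          smul_eq_mul]
        ring
      rw [hF, hxy] at e
      exact (mul_eq_zero.1 (e.trans (by ring))).resolve_left (by linarith)
    have hm : ‖(-1 : ℂ)‖ = 1 := by simp
    have hg' : (-g.1, -(g.1 - t • (y - g.1))) ∈
        conf (rot (-1) v) ((fun z => -1 * z) ⁻¹' C) S 0 := by
      refine ⟨by simpa using hg.1, by simpa using hz, fun hc => ?_, ?_, ?_⟩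
      · have h3 : t • (y - g.1) = 0 := by
          have := neg_injective hc
          linear_combination this
        exact hy.2.2.1 (sub_eq_zero.1 ((smul_eq_zero.1 h3).resolve_left ht.ne')).symm
      · have := hS.cone _ hy.2.2.2.1 t ht
        simpa using this
      · rw [FF_rot hm]
        simpa using hzx.le
    have h3 := gap (h.rot hm) (ha.rot hm) (θ := 0) (κ := κ) hε0 (by linarith) le_rfl zero_le_one
      (by linarith) (by linarith) (by linarith) hS hg' (x' := -x0) (by simpa using h0.1)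
      (by simp; linarith) (by simp [him, h0.2.1]) (by
        have : K * (g.1.re - x0.re) ≤ K * r :=
          mul_le_mul_of_nonneg_left (by linarith [h0.2.2.1]) hK.le
        simp only [Complex.sub_re, Complex.neg_re]
        linarith)
    exact hx0 (neg_injective h3)
  · dsimp only at hz hF
    have hD0 := re_pos_of_slope hε0 (hS.slope _ hy.2.2.2.1) (sub_ne_zero.2 hy.2.2.1.symm)
    have htD := mul_pos ht hD0
    have e : (y + t • (y - g.1)).re = y.re + t * (y - g.1).re := by simp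
    have h3 := hmax (a := (g.1, y + t • (y - g.1))) ⟨⟨hg.1, hz, fun hc => ?_, ?_,
      hF.le.trans (by simp)⟩, rfl⟩
    · have h4 : (y + t • (y - g.1)).re ≤ y.re := h3
      linarith
    · have h4 : g.1.re = (y + t • (y - g.1)).re := congrArg Complex.re hc
      rw [Complex.sub_re] at hD0
      dsimp only at hD0 htD
      linarith
    · have := hS.cone _ hy.2.2.2.1 (1 + t) (by linarith)
      have e2 : y + t • (y - g.1) - g.1 = (1 + t) • (y - g.1) := by
        rw [add_smul, one_smul]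
        ring
      dsimp only at this ⊢
      rwa [e2]

theorem pointwise (h : Data v l M K) (ha : Adm v l σ C) (hκ0 : 0 < κ) (hκ : κ ≤ 1 / 10)
    (hε0 : 0 < ε) (hε : ε ≤ κ) (hM : 32 * ε * M ≤ κ * σ) (hS : Sect ε S)
    (hr : 16 * K * r ≤ κ * σ) {a : ℝ} {G : ℝ≥0∞}
    (hG : ∀ g ∈ maxl v C S, g.1.im = a → p < g.1.re → g.1.re ≤ p + r →
      ENNReal.ofReal (g.2.re - p) ≤ G) :
    ∀ᶠ δ in 𝓝[>] (0 : ℝ), ∫⁻ s in {s : ℝ | (⟨s, a⟩ : ℂ) ∈ (Prod.fst '' conf v C S δ) ∩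
      {x | p < x.re ∧ x.re ≤ p + r}}, ENNReal.ofReal (l ⟨s, a⟩)
        ≤ ENNReal.ofReal δ * (ENNReal.ofReal (1 + 5 * κ) * G) := by
  have hσ := ha.pos
  have hK := h.Kpos
  by_cases htwo : ∃ x1 x2 : ℂ, x1 ≠ x2 ∧ (x1 ∈ C ∧ x1.im = a ∧ p < x1.re ∧ x1.re ≤ p + r) ∧
      (x2 ∈ C ∧ x2.im = a ∧ p < x2.re ∧ x2.re ≤ p + r)
  swap
  · refine Eventually.of_forall fun δ => ?_
    rw [setLIntegral_measure_zero]
    · exact zero_le
    · refine Set.Subsingleton.measure_zero (fun s hs t ht => ?_) _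
      by_contra hc
      obtain ⟨⟨g, hg, e⟩, hs⟩ := hs
      obtain ⟨⟨g', hg', e'⟩, ht⟩ := ht
      exact htwo ⟨⟨s, a⟩, ⟨t, a⟩, fun h3 => hc (congrArg Complex.re h3), ⟨e ▸ hg.1, rfl, hs⟩,
        ⟨e' ▸ hg'.1, rfl, ht⟩⟩
  obtain ⟨x1, x2, hne, h1, h2⟩ := htwo
  have hc : IsCompact (conf v C S (σ / 4) ∩ ({g | g.1.im = a} ∩ ({g | p ≤ g.1.re} ∩
      ({g | g.1.re ≤ p + r} ∩ {g | G ≤ ENNReal.ofReal (g.2.re - g.1.re)})))) := by
    refine (isCompact_conf h ha hS.closed (by linarith)).inter_right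
      ((isClosed_eq (by fun_prop) continuous_const).inter
        ((isClosed_le continuous_const (by fun_prop)).inter
          ((isClosed_le (by fun_prop) continuous_const).inter
            (isClosed_le continuous_const (ENNReal.continuous_ofReal.comp (by fun_prop))))))
  have hev := hc.eventually_forall_of_forall_eventually (x₀ := (0 : ℝ))
    (P := fun δ g => δ * ‖g.1 - g.2‖ ^ 2 < FF v g.1 g.2) (by
      rintro g ⟨hg, ha1, ha2, ha3, ha4⟩
      refine ContinuousAt.eventually_lt (by fun_prop)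
        ((continuous_FF h.continuous).comp continuous_snd).continuousAt ?_
      by_contra hc
      have hg0 : g ∈ conf v C S 0 := ⟨hg.1, hg.2.1, hg.2.2.1, hg.2.2.2.1, not_lt.1 hc⟩
      obtain ⟨h3, y, hy, h4⟩ := no_tight h ha hκ hε0 hε hM hS hr hne h1 h2 hg0 ha1 ha2 ha3
      have h5 := (hG _ hy ha1 h3 ha3).trans ha4
      have hD0 := re_pos_of_slope hε0 (hS.slope _ hg.2.2.2.1) (sub_ne_zero.2 hg.2.2.1.symm)
      rw [Complex.sub_re] at hD0
      rw [ENNReal.ofReal_le_ofReal_iff hD0.le] at h5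
      dsimp only at h5
      linarith)
  filter_upwards [mem_nhdsWithin_of_mem_nhds hev, Ioo_mem_nhdsGT (by linarith : 0 < σ / 4)]
    with δ hδ hδ'
  by_cases hGt : G = ⊤
  · rw [hGt, ENNReal.mul_top (by simpa using by linarith), ENNReal.mul_top (by simpa using hδ'.1)]
    exact le_top
  rw [← ENNReal.ofReal_toReal hGt, ← ENNReal.ofReal_mul (by linarith),
    ← ENNReal.ofReal_mul hδ'.1.le]
  have hσ1 : κ * σ ≤ 1 * σ := mul_le_mul_of_nonneg_right (by linarith) hσ.le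
  have hr0 : 0 ≤ K * r := mul_nonneg hK.le (by linarith [h1.2.2.1, h1.2.2.2])
  refine line h ha (p := p) (r := r) (by linarith) ?_ ?_
  · rintro s ⟨⟨g, hg, e⟩, hs⟩
    exact ⟨e ▸ hg.1, hs⟩
  · rintro s ⟨⟨g, hg, e⟩, hs⟩ t ⟨⟨g', hg', e'⟩, ht⟩ hst
    have h3 := incr_le h ha hκ0 hκ hε0 hε hM hS hr hδ'.1.le (by linarith [hδ'.2]) hg
      (x' := ⟨t, a⟩) (e' ▸ hg'.1) (by rw [e]) (by rw [e]; exact hst)
      (by rw [e]; have := hs.1; have := ht.2; dsimp only at *; linarith)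
    have h4 : g.2.re - g.1.re ≤ G.toReal := by
      rw [← ENNReal.ofReal_le_iff_le_toReal hGt]
      by_contra hc
      exact (hδ g ⟨conf_mono hδ'.2.le hg, by simp [e], by rw [mem_ofPred_eq, e]; exact hs.1.le,
        by rw [mem_ofPred_eq, e]; exact hs.2, (not_le.1 hc).le⟩).not_ge hg.2.2.2.2
    rw [e] at h3 h4
    refine h3.trans ?_
    rw [← mul_assoc]
    exact mul_le_mul_of_nonneg_left h4 (mul_nonneg hδ'.1.le (by linarith))

theorem cost : SCost := by
  intro v l M K σ κ ε r p C S G h ha hκ0 hκ hε0 hε hM hS hr0 hr hGm hG η hη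
  have hσ := ha.pos
  have hK := h.Kpos
  obtain ⟨R, hR⟩ := ha.cpt.isBounded.subset_closedBall 0
  set E : ℝ → Set ℂ := fun δ => (Prod.fst '' conf v C S δ) ∩ {x | p < x.re ∧ x.re ≤ p + r} with hE
  set c : ℝ → ℝ → ℝ≥0∞ := fun δ a => ∫⁻ s in {s : ℝ | (⟨s, a⟩ : ℂ) ∈ E δ},
    ENNReal.ofReal (l ⟨s, a⟩) with hc
  have hsm : ∀ᶠ δ in 𝓝[>] (0 : ℝ), δ ∈ Ioo 0 (σ / 2) := Ioo_mem_nhdsGT (by linarith)
  have hton : ∀ δ ∈ Ioo 0 (σ / 2), Measurable (c δ) ∧
      ∫⁻ x in E δ, ENNReal.ofReal (l x) = ∫⁻ a, c δ a := by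
    intro δ hδ
    have h1 : MeasurableSet (E δ) :=
      ((isCompact_conf h ha hS.closed hδ.2).image continuous_fst).measurableSet.inter
        ((measurableSet_lt measurable_const Complex.measurable_re).inter
          (measurableSet_le Complex.measurable_re measurable_const))
    have h2 := tonelli (f := (E δ).indicator fun x => ENNReal.ofReal (l x))
      (h.cont.measurable.ennreal_ofReal.indicator h1)
    have h3 : ∀ a : ℝ, ∫⁻ s : ℝ, (E δ).indicator (fun x => ENNReal.ofReal (l x)) ⟨s, a⟩ = c δ a := by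
      intro a
      have h4 : Measurable fun s : ℝ => (⟨s, a⟩ : ℂ) :=
        Complex.measurableEquivRealProd.symm.measurable.comp (measurable_prodMk_right (y := a))
      exact lintegral_indicator (h4 h1) fun s => ENNReal.ofReal (l ⟨s, a⟩)
    simp only [h3] at h2
    exact ⟨h2.1, by rw [← h2.2, lintegral_indicator h1]⟩
  have hlim := tendsto_lintegral_filter_of_dominated_convergence (μ := volume)
    (l := 𝓝[>] (0 : ℝ))
    (F := fun δ a => c δ a / ENNReal.ofReal δ - ENNReal.ofReal (1 + 5 * κ) * G a) (f := fun _ => 0)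
    ((Icc (-R) R).indicator fun _ => ENNReal.ofReal ((1 + 5 * κ) * (2 * R)))
    (hsm.mono fun δ hδ => ((hton δ hδ).1.div_const _).sub (hGm.const_mul _))
    (hsm.mono fun δ hδ => Eventually.of_forall fun a => by
      refine tsub_le_self.trans (ENNReal.div_le_of_le_mul' ?_)
      by_cases ha1 : a ∈ Icc (-R) R
      · rw [indicator_of_mem ha1, ← ENNReal.ofReal_mul hδ.1.le]
        have hσ1 : κ * σ ≤ 1 * σ := mul_le_mul_of_nonneg_right (by linarith) hσ.le
        refine line h ha (p := p) (r := r) (by linarith [mul_pos hK hr0]) ?_ ?_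
        · rintro s ⟨⟨g, hg, e⟩, hs⟩
          exact ⟨e ▸ hg.1, hs⟩
        · rintro s ⟨⟨g, hg, e⟩, hs⟩ t ⟨⟨g', hg', e'⟩, ht⟩ hst
          have h3 := incr_le h ha hκ0 hκ hε0 hε hM hS hr hδ.1.le hδ.2 hg
            (x' := ⟨t, a⟩) (e' ▸ hg'.1) (by rw [e]) (by rw [e]; exact hst)
            (by rw [e]; have := hs.1; have := ht.2; dsimp only at *; linarith)
          have h4 : g.2.re - g.1.re ≤ 2 * R := by
            have h5 := (Complex.abs_re_le_norm _).trans (mem_closedBall_zero_iff.1 (hR hg.1))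
            have h6 := (Complex.abs_re_le_norm _).trans (mem_closedBall_zero_iff.1 (hR hg.2.1))
            linarith [(abs_le.1 h5).1, (abs_le.1 h6).2]
          rw [e] at h3 h4
          refine h3.trans ?_
          rw [← mul_assoc]
          exact mul_le_mul_of_nonneg_left h4 (mul_nonneg hδ.1.le (by linarith))
      · have h1 : {s : ℝ | (⟨s, a⟩ : ℂ) ∈ E δ} = ∅ := by
          refine eq_empty_of_forall_notMem ?_
          rintro s ⟨⟨g, hg, e⟩, -⟩
          have h5 := (Complex.abs_im_le_norm _).trans (mem_closedBall_zero_iff.1 (hR hg.1))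
          rw [e] at h5
          exact ha1 (abs_le.1 h5)
        simp [hc, h1])
    (by
      rw [lintegral_indicator measurableSet_Icc, setLIntegral_const]
      exact ENNReal.mul_ne_top ENNReal.ofReal_ne_top measure_Icc_lt_top.ne)
    (hG.mono fun a ha1 => tendsto_const_nhds.congr' (by
      filter_upwards [pointwise h ha hκ0 hκ hε0 hε hM hS hr ha1] with δ hδ
      exact (tsub_eq_zero_of_le (ENNReal.div_le_of_le_mul' hδ)).symm))
  rw [lintegral_zero] at hlim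
  filter_upwards [hsm, hlim.eventually (gt_mem_nhds hη)] with δ hδ h1
  have h0 : ENNReal.ofReal δ ≠ 0 := by simpa using hδ.1
  rw [(hton δ hδ).2]
  calc ∫⁻ a, c δ a ≤ ∫⁻ a, ENNReal.ofReal δ * (ENNReal.ofReal (1 + 5 * κ) * G a +
        (c δ a / ENNReal.ofReal δ - ENNReal.ofReal (1 + 5 * κ) * G a)) := by
        refine lintegral_mono fun a => ?_
        calc c δ a = ENNReal.ofReal δ * (c δ a / ENNReal.ofReal δ) :=
              (ENNReal.mul_div_cancel h0 ENNReal.ofReal_ne_top).symm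
          _ ≤ _ := by gcongr; exact le_add_tsub
    _ = ENNReal.ofReal δ * (ENNReal.ofReal (1 + 5 * κ) * (∫⁻ a, G a) +
        ∫⁻ a, (c δ a / ENNReal.ofReal δ - ENNReal.ofReal (1 + 5 * κ) * G a)) := by
        rw [lintegral_const_mul' _ _ ENNReal.ofReal_ne_top, lintegral_add_left (hGm.const_mul _),
          lintegral_const_mul _ hGm]
    _ ≤ _ := by gcongr

end Pool.Agent.MP_515557_an.H19
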